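import Pool.Agent.H90.HighLowProof

namespace Pool.Agent.Results.MP_a09a4b_an.MixedBetter

open Pool.Agent.H90.HighLow
open scoped ENNReal

/-- The uniform mixture of four pure strategies `s 0, …, s 3` guarantees `0.623`, every pure
strategy pays at least `0.6235` at a point that is not one of its guesses, and so the mixture
guarantees less than the constant value of Alpern's strategy. -/
theorem result :
    ∃ s : Fin 4 → List Bool → ℝ, (∀ j l, s j l ∈ Set.Icc (0 : ℝ) 1) ∧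
      (∀ h ∈ Set.Icc (0 : ℝ) 1,
        ∑ j, (1 / 4 : ℝ≥0∞) * payoff (s j) h ≤ ENNReal.ofReal (623 / 1000)) ∧
      (∀ t : List Bool → ℝ, ∃ h ∈ Set.Icc (0 : ℝ) 1, h ∉ Set.range t ∧
        ENNReal.ofReal (6235 / 10000) ≤ payoff t h) ∧
      ∀ (lam : ℤ → ℝ) (v : ℝ≥0∞),
        (∀ h ∈ Set.Icc (0 : ℝ) 1, h ∉ Set.range (alpern lam) → payoff (alpern lam) h = v) →
        ⨆ h ∈ Set.Icc (0 : ℝ) 1, ∑ j, (1 / 4 : ℝ≥0∞) * payoff (s j) h < v := by
  refine ⟨fun j => strat (TT j) 0 0 64, fun j l => ?_, fun h hh => mixed_bound h hh.1 hh.2,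
    pure_bound, fun lam v hv => ?_⟩
  · simpa using strat_mem (TT j) 0 0 64 l (by norm_num) (TT_ok j)
  · obtain ⟨h, hh, hn, hb⟩ := pure_bound (alpern lam)
    rw [hv h hh hn] at hb
    refine lt_of_le_of_lt (iSup₂_le fun x hx => mixed_bound x hx.1 hx.2) (lt_of_lt_of_le ?_ hb)
    exact (ENNReal.ofReal_lt_ofReal_iff (by norm_num)).mpr (by norm_num)

end Pool.Agent.Results.MP_a09a4b_an.MixedBetter
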